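import Mathlib
import Pool.Agent.Y252.RA.FacV

/-!
Maps of the circle preserving the space of real parts of the disc algebra: the sharp form of the
necessary and sufficient condition, with the exponent of the map at every point.
-/

set_option autoImplicit false

namespace Pool.Agent.Results.MP_af796d_an.SharpForm

open Pool.Agent.Helper649.ReDef (reA)
open Pool.Agent.Y252.RA (Sharp)

theorem result :
    (∀ ψ : Circle → Circle, reA = {v | ∃ u ∈ reA, v = fun z => u (ψ z)} ↔
      ∃ Φ : Circle ≃ₜ Circle, (∀ z, Φ z = ψ z) ∧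
        ∃ C : ℝ, 0 < C ∧ Sharp Φ C⁻¹ C ∧ Sharp Φ.symm C⁻¹ C) ∧
    (∀ ψ : Circle ≃ₜ Circle, (∀ u ∈ reA, (fun z => u (ψ z)) ∈ reA) ↔
      ∃ C : ℝ, Sharp ψ.symm 0 C) :=
  ⟨Pool.Agent.Y252.RA.any_map, Pool.Agent.Y252.RA.one_sided⟩

end Pool.Agent.Results.MP_af796d_an.SharpForm
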